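import Pool.Agent.U901.FV

/-!
# Voisin's conjecture on zero-cycles for the quotients of Fermat surfaces of degree at most five

Let `X` be the Fermat surface `x_0^m + x_1^m + x_2^m + x_3^m = 0` over `ℂ`, where `m = 3, 4` or `5`; for
`m = 5` it is a surface of general type with `p_g(X) = 4`. Let `G` be any group of linear
automorphisms of `X` (subgroups of `((ℤ/m)^4 ⋊ S_4)`, not necessarily abelian, with arbitrary fixed
points), and let `S` be a smooth projective surface birational to `X / G`. Then
`H^0(S, K_S) = H^0(X, K_X)^G`, these are the residues of `P Ω / F` for the forms `P` of degree `m - 4`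
with `det g • P ∘ g = P` for all `g ∈ G`.

**Theorem.** For every `r > p_g(S)` and all zero-cycles `z_1, …, z_r` of degree zero on `S` (here:
`G`-invariant zero-cycles of degree zero on `X`; the Albanese variety is trivial)

`∑_σ sgn(σ) z_σ(1) × ⋯ × z_σ(r) = 0` in `CH_0(S^r) ⊗ ℚ`

(here: in `CH_0(X^r) ⊗ ℚ`), which is Q1 for `S`, by the theorem of Roitman.

For `G = 1` and `m = 5` this is Q1 for the Fermat quintic surface, `p_g = 4`, where already the
statement `r = 5` needs that no part of the motive of `X^5` that occurs in `Λ^5 H^2(X)` contributes to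
the zero-cycles; this does not follow from the finite-dimensionality of the motive of `X`, since
`Λ^5 H^2(X)` is not zero. For `p_g(S) = 0` it is Bloch's conjecture for `S`.

Proof. By the theorem `mainT` of the library of the starting files (`Pool/Agent/T2H37/PR/WFinal.lean`,
not used in a hand-in before) an integral combination of automorphisms of `X^r` which acts as zero
on the exterior products of two-forms on the factors acts as zero, up to torsion, on the exterior
products of zero-cycles of degree zero. Here this is applied to the combination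
`∑_σ ∑_{g_1, …, g_r ∈ G} sgn(σ) (g_1, …, g_r) σ`, whose action on the forms is a determinant of
evaluations of `r` invariant forms (`Pool/Agent/U901/FV.lean`).

`Fermat ℂ 4 m`: the points of `X`. `Pts ℂ (fun _ : Fin r => 4) m`: the points of `X^r`.
`RatEquivZero`: the zero-cycles rationally equivalent to zero (rational curves in the symmetric
powers, given by Chow forms in the Segre embedding). `InvForm G P`: `P` is a form of degree `m - 4`
whose residue is invariant under `G`. `extProd z`: the exterior product of the zero-cycles `z k`.
-/

set_option autoImplicit false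

namespace Pool.Agent.Results.MP_83b46e_ag.FermatQuotients

open MvPolynomial Pool.Agent.T2H37.PR Pool.Agent.T2H37.FK

/-- Voisin's conjecture for the surfaces birational to a quotient `X / G` of the Fermat surface `X` of
degree `m ≤ 5`: if `r` is larger than the dimension of the space of invariant two-forms then the
alternating sum of the exterior products of `r` invariant zero-cycles of degree zero is torsion. -/
theorem result (m : ℕ) (hm : 3 ≤ m) (hm5 : m ≤ 5) (G : Subgroup (FermatGroup ℂ 4 m)) (r : ℕ)
    (hr : ∀ P : Fin r → MvPolynomial (Fin 4) ℂ, (∀ i, InvForm G (P i)) → ¬ LinearIndependent ℂ P)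
    (z : Fin r → (Fermat ℂ 4 m →₀ ℤ)) (hz : ∀ i, ((z i).sum fun _ c => c) = 0)
    (hG : ∀ i, ∀ g ∈ G, ∀ x, z i (Pool.Agent.T2H37.FK.act g x) = z i x) :
    ∃ j : ℕ, 0 < j ∧ j • ∑ σ : Equiv.Perm (Fin r), (Equiv.Perm.sign σ : ℤ) •
      extProd (N := fun _ : Fin r => 4) (fun k => z (σ k)) ∈
      Pool.Agent.T2H37.PR.RatEquivZero ℂ (fun _ : Fin r => 4) m := by
  obtain ⟨j, hj, h⟩ := Pool.Agent.U901.FV.voisin hm (by omega) G hr z hz hG
  refine ⟨j, hj, ?_⟩
  have h1 : ∀ σ : Equiv.Perm (Fin r),
      ((Equiv.Perm.sign σ : ℤ) ^ (4 + 1)) = (Equiv.Perm.sign σ : ℤ) := by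
    intro σ
    rcases Int.units_eq_one_or (Equiv.Perm.sign σ) with h7 | h7 <;> rw [h7] <;> norm_num
  simp only [h1] at h
  exact h

end Pool.Agent.Results.MP_83b46e_ag.FermatQuotients
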