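import Pool.Agent.U840.VS.Main

/-!
# Voisin's conjecture on zero-cycles for all Fermat surfaces, and for all Fermat hypersurfaces

Let `X` be the Fermat surface `x_0^m + x_1^m + x_2^m + x_3^m = 0` of **any** degree `m`, over an
algebraically closed field of characteristic zero. Its geometric genus is
`p_g(X) = C(m - 1, 3)`, the dimension of the space of forms of degree `m - 4` in four variables.

**Theorem.** Q1 holds for `X`: for all `r > p_g(X)` and all zero-cycles `z_1, …, z_r` of degree zero
on `X` (the Albanese variety is trivial)

`∑_σ sgn(σ) z_σ(1) × ⋯ × z_σ(r) = 0` in `CH_0(X^r) ⊗ ℚ`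

(some positive multiple is rationally equivalent to zero, and by the theorem of Roitman `CH_0(X^r)`
has no torsion).

More generally, for the Fermat hypersurface `X` of degree `m` in the projective space of dimension
`N - 1`, `p_g(X) = C(m - 1, N - 1)`, the sum of the `sgn(σ)^(N + 1) z_σ(1) × ⋯ × z_σ(r)` vanishes in
`CH_0(X^r) ⊗ ℚ` for all `r > p_g(X)` and all zero-cycles of degree zero; so the sum is alternating for
`X` of even dimension and symmetric for `X` of odd dimension, as in the generalised form of the
conjecture. The hand-in `FermatQuotients` has the degrees `m ≤ 5` (and quotients).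

**Proof.** Let `f` be an additive function on the zero-cycles of `X^r` modulo rational equivalence.
It is the sum of its components for the characters `(α_1, …, α_r)` of the group of diagonal
matrices, `α_k = (α_k(1), …, α_k(N)) ∈ (ℤ/m)^N`. By the starting files (`Pool/Agent/T2H37/PR`)

* a component which does not vanish on the products of cycles of degree zero has `α_k ≠ 0`, the sum
  of the coordinates of `α_k` is zero, and no other nonempty set of coordinates has the sum zero;
* it vanishes if for some `k ≠ l` the coordinates of `α_k` and those of `α_l` can be cut in three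
  blocks with opposite sums (`GoodP.comp_three`);
* if `α_k = α_l` then the exchange of the two factors changes the component by the sign `(-1)^N`
  (`GoodP.exch_block`), so that its sum over all permutations vanishes.

New here (`Pool/Agent/U840/VS/Comb.lean`): the set `S(α) ⊂ ℤ/m ∖ {0}` of the `N - 1` partial sums
`α(1) + ⋯ + α(j)`, `j < N`. If `S(α) = S(β)` but `α ≠ β`, then there are `u, v ∈ S(α)` such that `u` comes
before `v` in the sequence of the partial sums of `α` and `v` before `u` in that of `β`, and the blocks
of `α` cut out by `u` and `v` have the sums `u`, `v - u`, `-v`, and those of `β` the sums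
`v`, `u - v`, `-u`, which are opposite. So for a component which does not vanish `S(α_k) = S(α_l)`
implies `α_k = α_l`. The number of the sets with `N - 1` elements in `ℤ/m ∖ {0}` is
`C(m - 1, N - 1) = p_g(X) < r`; so two of the `α_k` are equal.

`Fermat 𝕜 N m`: the points of `X`. `Pts 𝕜 (fun _ : Fin r => N) m`: the points of `X^r`.
`extProd z`: the exterior product of the zero-cycles `z k`. `RatEquivZero`: the zero-cycles rationally
equivalent to zero (rational curves in the symmetric powers, given by Chow forms in the Segre
embedding).
-/

set_option autoImplicit false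

namespace Pool.Agent.Results.MP_83b46e_ag.FermatSurfaces

open Pool.Agent.T2H37.PR Pool.Agent.T2H37.FK

/-- **Voisin's conjecture for the Fermat hypersurfaces of all degrees and dimensions.** Let `X` be
the hypersurface `∑ i, x i ^ m = 0` in the projective space of dimension `N - 1`, with geometric genus
`C(m - 1, N - 1)`. If `r` is larger than the geometric genus then the sum of the exterior products
`z (σ 1) × ⋯ × z (σ r)` of zero-cycles of degree zero on `X`, with the signs `sgn(σ) ^ (N + 1)`, is
torsion in the group of zero-cycles of `X ^ r` modulo rational equivalence. (For surfaces `N = 4`,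
`sgn(σ) ^ (N + 1) = sgn(σ)`.) -/
theorem result {𝕜 : Type*} [Field 𝕜] [IsAlgClosed 𝕜] [CharZero 𝕜] (N m r : ℕ) (hN : 3 ≤ N)
    (hm : 1 ≤ m) (hr : (m - 1).choose (N - 1) < r) (z : Fin r → (Fermat 𝕜 N m →₀ ℤ))
    (hz : ∀ i, ((z i).sum fun _ c => c) = 0) :
    ∃ j : ℕ, 0 < j ∧ j • ∑ σ : Equiv.Perm (Fin r), ((Equiv.Perm.sign σ : ℤ) ^ (N + 1)) •
      extProd (N := fun _ : Fin r => N) (fun k => z (σ k)) ∈
      Pool.Agent.T2H37.PR.RatEquivZero 𝕜 (fun _ : Fin r => N) m := by
  have : NeZero m := ⟨by omega⟩
  exact Pool.Agent.U840.VS.voisin z (by omega) hr hz

end Pool.Agent.Results.MP_83b46e_ag.FermatSurfaces
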