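import Pool.Agent.U191.VG.Main

/-!
# Voisin's conjecture on zero-cycles for the quotients of products of curves by finite groups with
# rational representations

Let `X` and `Y` be curves of any genus with actions of a finite group `G`, and let `S` be a surface
which is dominated by the quotient `(X × Y) / G` by the diagonal action, for example a resolution of
`(X × Y) / G`; the actions may have any fixed points, and `G` need not be abelian. Let all
irreducible representations of `G` be realizable over the rational numbers: for example
`G = (ℤ/2)^r`, the symmetric groups and all other Weyl groups (the dihedral groups of order 6, 8, 12,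
...), and their products. For an irreducible representation `φ` let `2 γ φ` and `2 γ' φ` be its
multiplicities in `H^1(X)` and `H^1(Y)`. The holomorphic two-forms on a resolution of `(X × Y) / G`
are the invariants of `H^(1,0)(X) ⊗ H^(1,0)(Y)`, so that by the lemma of Schur

`p_g((X × Y) / G) = ∑_φ γ φ * γ' φ`.

**Theorem.** For all `n > p_g((X × Y) / G)` and all Albanese-trivial zero-cycles `α_1, …, α_n` on `S`,
with rational coefficients,

`∑_σ sgn(σ) α_σ(1) × ⋯ × α_σ(n) = 0` in `CH^(2n)(S^n)_ℚ`.

This is the conjecture of Voisin for all surfaces `S` birational to `(X × Y) / G`; the geometric genus
is arbitrary, and so are the group and the dimension of the family.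

More generally, let `S` be dominated by finitely many quotients `(X i × Y i) / G i` together: some
combination of the `(b i)_* (ᵗb i)_*` is the identity on the Albanese kernel, `b i` a `G i`-invariant
correspondence from `X i × Y i` to `S`. Then the theorem holds for all `n` greater than the sum of
the numbers `p_g((X i × Y i) / G i)`. Example: a bidouble cover `S` of a rational surface for which
the quotients by the three involutions are birational to such quotients of products; its geometric
genus is the sum of the geometric genera of these, and so this is again the conjecture for `S`. The
theorem is stated for the pull-backs of the `α_j` under arbitrary morphisms `s_i : W → S`; for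
`W = S^n` and the projections these are the factors of the exterior products above.

The group enters through elements `c φ` of the group algebra, symmetric idempotents which generate it
as a two-sided ideal (`IsFullFamily`). If all irreducible representations are rational then the
projectors onto one line in each of them are such elements, the part `c φ · h^1(X)` of the motive of
`X` has the rank `2 γ φ`, and the bound is the geometric genus. For other groups (for example with
`c = 1`, or with the projectors onto the irreducible rational representations) the theorem holds
with the bound `∑_φ γ φ * γ' φ`, which can be larger than the geometric genus.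

The varieties are the objects of a class of smooth projective varieties over any field (`VarClass`),
and the Chow groups with rational coefficients are given by their formal properties (`IsChowProj`).
The definitions say: `InAlbKer` — the zero-cycle is killed by all correspondences to divisor classes of
other varieties (over the complex numbers: it has degree zero and its Albanese image is torsion; by
the theorem of Roitman the conjecture with integral coefficients is equivalent to the one with
rational coefficients); `IsCurveWithRanks` — a curve with an action of `G` and the theorem of
Kimura: `Sym^(2 γ φ + 1)` of the part `c φ · h^1(X)` is zero; `IsDominatedByQuotients` — as above.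

The proof. The pull-back of a zero-cycle in the Albanese kernel to `X × Y` is a `G`-invariant
correspondence `β` between the motives `h^1`. Since the `c φ` generate the group algebra, `β` is a sum
of images of the classes `c φ ∘ β = β ∘ c φ` under correspondences which do not depend on `β`
(`exists_dec`); so the determinants of the zero-cycles on `S` are sums of products of minors which are
the images under correspondences of determinants of zero-cycles of one type. By a theorem of the
library of the starting files (`Pool/Agent/R904/Voi/Det`: hafnians and conjugate partitions) the
latter vanish if their size is greater than `γ φ * γ' φ`.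

For `G = (ℤ/2)^r` and one quotient this is the theorem `main` of the library
(`Pool/Agent/R904/Voi/Main`), where the projectors `c φ` are central, so that no correspondences from
one line to another in a representation are needed.
-/

set_option autoImplicit false

open CategoryTheory AlgebraicGeometry

universe u v

namespace Pool.Agent.Results.MP_83b46e_ag.FiniteGroupQuotients

open Pool.Agent.H914 Pool.Agent.H914.VarClass Pool.Agent.H914.VarClass.Obj Pool.Agent.W492.BB
  Pool.Agent.W550.Corr Pool.Agent.TH133 Pool.Agent.Y152.AS Pool.Agent.U191.VG

/-- **Voisin's conjecture for the surfaces `S` dominated by quotients of products of curves by finite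
groups with rational representations**: the alternating sum of the exterior products of
`n > ∑ i, ∑ φ, γ i φ * γ' i φ` zero-cycles in the Albanese kernel of `S` is zero. -/
theorem result {k : Type u} [Field k] {𝒱 : VarClass k} (C : TheoryData.{u, v, 0} 𝒱 ℚ)
    [IsChowProj C] {I : Type} [Fintype I] {G Φ : I → Type} [∀ i, Group (G i)]
    [∀ i, Fintype (G i)] [∀ i, Fintype (Φ i)] (c : ∀ i, Φ i → G i → ℚ)
    (hc : ∀ i, IsFullFamily (c i)) {X Y : I → 𝒱.Obj} {S : 𝒱.Obj}
    (a : ∀ i, G i → (X i ⟶ X i)) (a' : ∀ i, G i → (Y i ⟶ Y i)) (γ γ' : ∀ i, Φ i → ℕ)
    (hX : ∀ i, IsCurveWithRanks C (X i) (a i) (c i) (γ i))
    (hY : ∀ i, IsCurveWithRanks C (Y i) (a' i) (c i) (γ' i))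
    (hS : IsDominatedByQuotients C a a' S) (n : ℕ) (hn : ∑ i, ∑ φ, γ i φ * γ' i φ < n)
    (α : Fin n → C.A S) (hα : ∀ i, InAlbKer C (α i)) (W : 𝒱.Obj) (s : Fin n → (W ⟶ S)) :
    ∑ σ : Equiv.Perm (Fin n), (Equiv.Perm.sign σ : ℤ) •
      (List.ofFn fun i => C.up (s i) (α (σ i))).prod = 0 := by
  have h := main hc hX hY hS hn α hα s
  rw [← Matrix.det_transpose, Matrix.det_apply] at h
  rw [← h]
  refine Finset.sum_congr rfl fun σ _ => ?_
  rw [List.prod_ofFn]
  rfl

end Pool.Agent.Results.MP_83b46e_ag.FiniteGroupQuotients
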