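import Pool.Agent.U840.VF.Main

/-!
# Voisin's conjecture on zero-cycles for the quotients of products of curves whose group acts on one
of the curves through a group with orthogonal irreducible representations

Let `X` and `Y` be curves of any genus. Let a finite group `A` act on `X`, let `φ : G → A` be a
homomorphism of finite groups, and let `G` act on `Y`; so `G` acts on `X × Y` through `φ` and the
given action. Suppose that all irreducible representations `ρ` of `A` are orthogonal (they can be
realized by orthogonal matrices over a field `F` of characteristic zero, say over `F = ℂ`): for example
`A` is a dihedral or a generalized dihedral group, a symmetric group or another finite Coxeter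
group, the group `𝔄_5`, an elementary abelian 2-group, a product of such groups. There is no
condition on `G` and on `Y`: for example `G` is any finite abelian group, acting on `X` and on `Y`, and
`X` has an involution `ι` with `ι g ι = g⁻¹` for all `g` in `G` (then `A` is the generalized dihedral
group of `G`); or `A` is the symmetric group acting on the Galois closure `X` of a covering of curves
and `G` is any subgroup. Let `S` be a surface dominated by the quotient `(X × Y) / G`, for example a
resolution of `(X × Y) / G`; the actions may have any fixed points.

For an irreducible representation `ρ` of `A` let `2 γ ρ` and `2 γ' ρ` be the dimensions of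
`(ρ ⊗ H^1(X))^A` and `(ρ ⊗ H^1(Y))^G`. (They are even: these spaces have symplectic forms, because `ρ`
has an invariant symmetric form. And by complex conjugation half of each is of type `(1,0)`, because
`ρ` is real.) The holomorphic two-forms on a resolution of `(X × Y) / G` are the `G`-invariants of
`H^(1,0)(X) ⊗ H^(1,0)(Y)`, and `H^(1,0)(X)` is the sum of the `ρ ⊗ (ρ ⊗ H^(1,0)(X))^A`, so that

`p_g((X × Y) / G) = ∑_ρ γ ρ * γ' ρ`.

**Theorem.** For all `N > p_g((X × Y) / G)` and all Albanese-trivial zero-cycles `α_1, …, α_N` on `S`,

`∑_σ sgn(σ) α_σ(1) × ⋯ × α_σ(N) = 0` in `CH^(2N)(S^N)`.

This is the conjecture of Voisin for all surfaces `S` birational to `(X × Y) / G`; the geometric genus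
is arbitrary, and so are the groups and the dimension of the family.

The Chow groups are taken with coefficients in `F`; since `CH ⊗ ℚ → CH ⊗ F` is injective this includes
the statement for rational coefficients, which by the theorem of Roitman is equivalent to the one
for integral coefficients.

More generally, let `S` be dominated by finitely many quotients `(X i × Y i) / G i` together: some
combination of the `(c i)_* (ᵗc i)_*` is the identity on the Albanese kernel, `c i` a `G i`-invariant
correspondence from `X i × Y i` to `S`. Then the theorem holds for all `N` greater than the sum of
the numbers `p_g((X i × Y i) / G i)`. The theorem is stated for the pull-backs of the `α_j` under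
arbitrary morphisms `s_i : W → S`; for `W = S^N` and the projections these are the factors of the
exterior products above.

The varieties are the objects of a class of smooth projective varieties over any field (`VarClass`),
and the Chow groups are given by their formal properties (`IsChowF`). The definitions say:
`InAlbKer` — the zero-cycle is killed by all correspondences to divisor classes of other varieties
(over the complex numbers: it has degree zero and its Albanese image is torsion);
`IsOrthogonalSystem` — the irreducible representations of the group, given by orthogonal matrices
(they are the orthogonal representations `ρ l` whose sum, each taken as often as its dimension, has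
the character of the regular representation); `repProj` — the projector of the motive
`(ρ ⊗ h^1(X))^A`, a matrix of correspondences on `X`; `IsCurveWithRanks` — a curve with an action of
the group and the theorem of Kimura: `Sym^(2 γ + 1)` of these motives is zero (`symPower`);
`IsDominatedByQuotients` — as above.

The proof. The pull-back of a zero-cycle in the Albanese kernel to `X × Y` is a `G`-invariant
correspondence `β` between the motives `h^1`, and `β = ∑_ρ dim(ρ) ∑_i p_ρ(ii) ∘ β`, where the matrix of
the classes `p_ρ(ij) ∘ β` is a zero-cycle on the product of the motives `(ρ ⊗ h^1(X))^A` and
`(ρ ⊗ h^1(Y))^G` (`rep_cross`). These motives are symmetric: they are equal to their transposes, as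
the representations are orthogonal. Summing permanents of the values of the matrices of
correspondences against the correspondences themselves one gets that sums over perfect matchings
vanish (`haf`), and from this that zero-cycles on the product are killed by the Young symmetrizers
with more than `γ ρ` columns in the first and more than `γ' ρ` columns in the second factors
(`rel`); by the theorem on conjugate partitions of the library of the starting files
(`Pool/Agent/R904/Voi/Alt`) the determinants of such zero-cycles of size greater than `γ ρ * γ' ρ`
vanish. The determinants of the zero-cycles on `S` are sums of products of minors of one type.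

For `G = A = (ℤ/2)^r` and one quotient this is the theorem `main` of the library
(`Pool/Agent/R904/Voi/Main`), the method of which is extended here to matrices of correspondences
and to coefficients in a field `F`. For the groups `G = A` all of whose irreducible representations
are rational it is the sharp case of the hand-in `FiniteGroupQuotients` to the same problem.
-/

set_option autoImplicit false

open CategoryTheory AlgebraicGeometry

universe u v

namespace Pool.Agent.Results.MP_83b46e_ag.OrthogonalQuotients

open Pool.Agent.H914 Pool.Agent.H914.VarClass Pool.Agent.H914.VarClass.Obj Pool.Agent.W492.BB
  Pool.Agent.W550.Corr Pool.Agent.TH133 Pool.Agent.U840.VF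

/-- **Voisin's conjecture for the surfaces `S` dominated by quotients `(X i × Y i) / G i` of products
of curves, where `G i` acts on `X i` through a group `A i` with orthogonal irreducible representations
`ρ i l`**: the alternating sum of the exterior products of `N > ∑ i, ∑ l, γ i l * γ' i l` zero-cycles
in the Albanese kernel of `S` is zero. -/
theorem result {k : Type u} [Field k] {𝒱 : VarClass k} {F : Type} [Field F] [CharZero F]
    (C : TheoryData.{u, v, 0} 𝒱 F) [IsChowF C] {I : Type} [Fintype I] {A G : I → Type}
    [∀ i, Group (A i)] [∀ i, Fintype (A i)] [∀ i, Group (G i)] [∀ i, Fintype (G i)]
    (φ : ∀ i, G i →* A i) {L : I → Type} [∀ i, Fintype (L i)] {D : ∀ i, L i → Type}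
    [∀ i l, Fintype (D i l)] [∀ i l, DecidableEq (D i l)]
    (ρ : ∀ i l, A i → Matrix (D i l) (D i l) F) (hρ : ∀ i, IsOrthogonalSystem (ρ i))
    {X Y : I → 𝒱.Obj} {S : 𝒱.Obj} (a : ∀ i, A i → (X i ⟶ X i)) (b : ∀ i, G i → (Y i ⟶ Y i))
    (γ γ' : ∀ i, L i → ℕ) (hX : ∀ i, IsCurveWithRanks C (ρ i) (X i) (a i) (γ i))
    (hY : ∀ i, IsCurveWithRanks C (fun l g => ρ i l (φ i g)) (Y i) (b i) (γ' i))
    (hS : IsDominatedByQuotients C (fun i g => a i (φ i g)) b S)
    (N : ℕ) (hN : ∑ i, ∑ l, γ i l * γ' i l < N)
    (α : Fin N → C.A S) (hα : ∀ i, InAlbKer C (α i)) (W : 𝒱.Obj) (s : Fin N → (W ⟶ S)) :
    ∑ σ : Equiv.Perm (Fin N), (Equiv.Perm.sign σ : ℤ) •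
      (List.ofFn fun i => C.up (s i) (α (σ i))).prod = 0 := by
  have h := main hρ hX hY hS hN α hα s
  rw [← Matrix.det_transpose, Matrix.det_apply] at h
  rw [← h]
  refine Finset.sum_congr rfl fun σ _ => ?_
  rw [List.prod_ofFn]
  rfl

end Pool.Agent.Results.MP_83b46e_ag.OrthogonalQuotients
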